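import Mathlib
import Pool.Agent.Helper61.FR.St.P1

/-!
# The union bound over all scales, with an explicit constant

This is `Pool.Agent.Helper40.LPA.stage3V` (helper40, helper17, helper13) with the constant made
explicit: it depends only on the first scale `q₀`, not on the measure.
-/

set_option autoImplicit false

open MeasureTheory Finset

namespace Helper58.LU

open Pool.Agent.Helper61.FR

/-- Markov's inequality for a number of events -/
private lemma markov_card {μ : Measure ℝ} [IsProbabilityMeasure μ] (I : Finset ℕ)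
    (B : ℕ → Set ℝ) [∀ x i, Decidable (x ∈ B i)] (hB : ∀ i, MeasurableSet (B i)) (t : ℝ) :
    t * μ.real {x | t ≤ ((I.filter (fun i => x ∈ B i)).card : ℝ)} ≤ ∑ i ∈ I, μ.real (B i) := by
  have hf : ∀ x, ((I.filter (fun i => x ∈ B i)).card : ℝ)
      = ∑ i ∈ I, (B i).indicator (fun _ => (1 : ℝ)) x := by
    intro x
    rw [Finset.card_filter]
    push_cast
    refine Finset.sum_congr rfl fun i _ => ?_
    simp [Set.indicator_apply]
  have hint : ∀ i, Integrable ((B i).indicator (fun _ => (1 : ℝ))) μ := fun i =>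
    (integrable_const (1 : ℝ)).indicator (hB i)
  have h1 := mul_meas_ge_le_integral_of_nonneg (μ := μ)
    (f := fun x => ∑ i ∈ I, (B i).indicator (fun _ => (1 : ℝ)) x)
    (Filter.Eventually.of_forall fun x => Finset.sum_nonneg fun i _ =>
      Set.indicator_nonneg (fun _ _ => zero_le_one) x)
    (integrable_finsetSum _ fun i _ => hint i) t
  have h2 : ∫ x, ∑ i ∈ I, (B i).indicator (fun _ => (1 : ℝ)) x ∂μ = ∑ i ∈ I, μ.real (B i) := by
    rw [integral_finsetSum _ fun i _ => hint i]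
    refine Finset.sum_congr rfl fun i _ => ?_
    rw [integral_indicator (hB i)]
    simp
  rw [h2] at h1
  have h3 : {x | t ≤ ((I.filter (fun i => x ∈ B i)).card : ℝ)}
      = {x | t ≤ ∑ i ∈ I, (B i).indicator (fun _ => (1 : ℝ)) x} := by
    ext x
    show t ≤ ((I.filter (fun i => x ∈ B i)).card : ℝ) ↔
      t ≤ ∑ i ∈ I, (B i).indicator (fun _ => (1 : ℝ)) x
    rw [hf x]
  rw [h3]
  exact h1

/-- the level used at step `j` -/
private noncomputable def lev (q₀ j : ℕ) : ℕ := Nat.log 2 (2 ^ q₀ + (j - 1) / 2)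

private lemma lev_ge (q₀ j : ℕ) : q₀ ≤ lev q₀ j := by
  unfold lev
  exact Nat.le_log_of_pow_le (by norm_num) (by omega)

private lemma lev_mono (q₀ : ℕ) {j k : ℕ} (hjk : j ≤ k) : lev q₀ j ≤ lev q₀ k := by
  unfold lev
  apply Nat.log_mono_right
  have : (j - 1) / 2 ≤ (k - 1) / 2 := Nat.div_le_div_right (by omega)
  omega

private lemma lev_pow (q₀ j : ℕ) : 2 ^ lev q₀ j ≤ 2 ^ q₀ + (j - 1) / 2 := by
  unfold lev
  apply Nat.pow_log_le_self
  have : 0 < 2 ^ q₀ := by positivity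
  omega

private lemma lev_lt (q₀ j : ℕ) : 2 ^ q₀ + (j - 1) / 2 < 2 ^ (lev q₀ j + 1) := by
  unfold lev
  exact Nat.lt_pow_succ_log_self (by norm_num) _

/-- the indices used at level `q` -/
private def RR (q₀ q : ℕ) : Finset ℕ :=
  Finset.Ico (2 * (2 ^ q - 2 ^ q₀) + 1) (2 * (2 ^ q - 2 ^ q₀) + 1 + 2 ^ (q + 2))

private lemma mem_RR {q₀ j i : ℕ} (hj : 1 ≤ j) (h1 : j ≤ i) (w : ℕ) (h2 : i + 1 ≤ j + w)
    (hw : w ≤ 2 ^ (lev q₀ j + 1)) : i ∈ RR q₀ (lev q₀ j) := by
  have ha := lev_pow q₀ j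
  have hb := lev_lt q₀ j
  have hc := lev_ge q₀ j
  set q := lev q₀ j with hq
  have hd : 2 ^ q₀ ≤ 2 ^ q := Nat.pow_le_pow_right (by norm_num) hc
  have hf : 2 ^ (q + 2) = 2 * 2 ^ (q + 1) := by ring
  have hg : 2 ^ (q + 1) = 2 * 2 ^ q := by ring
  unfold RR
  rw [Finset.mem_Ico]
  constructor
  · omega
  · omega

/-- **The union bound over all scales with a window function `W`.**  If for each scale `q ≥ q₀` two
points of `G q` never differ by an odd multiple of `2 ^ (-n')`, `n₁ ≤ n' ≤ W q` (up to a very small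
error), and `∑ (2 ^ q / W q) μ (G q)ᶜ` is small, then arcs of arbitrary small length have a definite
mass. -/
theorem stage3E {μ : Measure ℝ} (h : Inv23 μ) (q₀ : ℕ) (n₁ W : ℕ → ℕ)
    (hn₁ : ∀ q, q₀ ≤ q → 1 ≤ n₁ q)
    (hWm : Monotone W) (hW1 : ∀ q, q₀ ≤ q → 4 * n₁ q ≤ W q) (hW2 : ∀ q, q₀ ≤ q → W q ≤ 2 ^ (q + 1))
    (G : ℕ → Set ℝ) (hGm : ∀ q, MeasurableSet (G q))
    (hGp : ∀ q x, Int.fract x ∈ G q ↔ x ∈ G q)
    (hdet : ∀ q, q₀ ≤ q → ∀ (n' : ℕ) (d : ℤ) (τ x : ℝ), n₁ q ≤ n' → n' ≤ W q → Odd d →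
      |τ| * 3 ^ (2 ^ q) * 2 ^ n' ≤ 1 → x ∈ G q → x + d / 2 ^ n' + τ ∈ G q → False)
    (hsum : ∀ Q : ℕ, ∑ q ∈ Ico q₀ Q, (2 ^ q / W q : ℝ) * μ.real (G q)ᶜ ≤ 1 / 128) :
    ∀ K : ℕ, ∃ y : ℝ, (3 / 4) / 3 ^ (2 ^ q₀) ≤
      μ.real {x | ∃ z : ℤ, |x - y - z| ≤ (1 / 2) ^ K} := by
  classical
  have hprob := h.prob
  intro K
  -- the number of steps
  obtain ⟨n, hn⟩ : ∃ n, n = K + W (lev q₀ K) := ⟨_, rfl⟩
  -- the bad events
  let B : ℕ → ℕ → Set ℝ := fun q i => {x | (2 : ℝ) ^ (n - i) * x ∉ G q}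
  have hBm : ∀ q i, MeasurableSet (B q i) := by
    intro q i
    have : MeasurableSet ((fun x : ℝ => (2 : ℝ) ^ (n - i) * x) ⁻¹' (G q)ᶜ) :=
      (measurable_const.mul measurable_id) (hGm q).compl
    exact this
  have hBmu : ∀ q i, μ.real (B q i) = μ.real (G q)ᶜ := by
    intro q i
    have h1 := (preserving_two_pow h (n - i)).measure_preimage (hGm q).compl.nullMeasurableSet
    have h2 : (fun x : ℝ => Int.fract (2 ^ (n - i) * x)) ⁻¹' (G q)ᶜ = B q i := by
      ext x
      show Int.fract (2 ^ (n - i) * x) ∉ G q ↔ (2 : ℝ) ^ (n - i) * x ∉ G q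
      rw [hGp]
    rw [h2] at h1
    simp only [Measure.real, h1]
  let F : ℕ → Set ℝ := fun q =>
    {x | (W q / 8 : ℝ) ≤ (((RR q₀ q).filter (fun i => x ∈ B q i)).card : ℝ)}
  have hF : ∀ q, q₀ ≤ q → μ.real (F q) ≤ 32 * ((2 ^ q / W q : ℝ) * μ.real (G q)ᶜ) := by
    intro q hq
    have hq' : (0 : ℝ) < W q := by
      have : 0 < W q := by
        have := hW1 q hq
        have := hn₁ q hq
        omega
      exact_mod_cast this
    have h1 := markov_card (μ := μ) (RR q₀ q) (B q) (hBm q) (W q / 8 : ℝ)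
    have h2 : ∑ i ∈ RR q₀ q, μ.real (B q i) = 2 ^ (q + 2) * μ.real (G q)ᶜ := by
      rw [Finset.sum_congr rfl fun i _ => hBmu q i, Finset.sum_const, nsmul_eq_mul]
      congr 1
      unfold RR
      rw [Nat.card_Ico]
      push_cast [Nat.add_sub_cancel_left]
      rfl
    rw [h2] at h1
    have h3 : (W q / 8 : ℝ) * μ.real (F q) ≤ 2 ^ (q + 2) * μ.real (G q)ᶜ := h1
    have h4 : 32 * ((2 ^ q / W q : ℝ) * μ.real (G q)ᶜ)
        = (2 ^ (q + 2) * μ.real (G q)ᶜ) / (W q / 8 : ℝ) := by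
      field_simp
      ring
    rw [h4, le_div_iff₀ (by positivity)]
    linarith
  let Q : ℕ := lev q₀ K + 1
  let FF : Set ℝ := ⋃ q ∈ Finset.Ico q₀ Q, F q
  have hFF : μ.real FF ≤ 1 / 4 := by
    calc μ.real FF ≤ ∑ q ∈ Finset.Ico q₀ Q, μ.real (F q) := measureReal_biUnion_finset_le _ _
      _ ≤ ∑ q ∈ Finset.Ico q₀ Q, 32 * ((2 ^ q / W q : ℝ) * μ.real (G q)ᶜ) :=
          Finset.sum_le_sum fun q hq => hF q (Finset.mem_Ico.1 hq).1
      _ = 32 * ∑ q ∈ Finset.Ico q₀ Q, ((2 ^ q / W q : ℝ) * μ.real (G q)ᶜ) := by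
          rw [Finset.mul_sum]
      _ ≤ 32 * (1 / 128) := by
          have := hsum Q
          linarith
      _ = 1 / 4 := by norm_num
  have hFFc : 3 / 4 ≤ μ.real FFᶜ := by
    have h1 : μ.real (FF ∪ FFᶜ) ≤ μ.real FF + μ.real FFᶜ := measureReal_union_le _ _
    rw [Set.union_compl_self, probReal_univ] at h1
    linarith
  -- one of the classes is large
  let Om : ℕ → Set ℝ := fun c =>
    FFᶜ ∩ {x | ⌊(3 : ℝ) ^ (2 ^ q₀) * Int.fract ((2 : ℝ) ^ n * x)⌋₊ = c}
  obtain ⟨c, hc⟩ : ∃ c, (3 / 4) / 3 ^ (2 ^ q₀) ≤ μ.real (Om c) := by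
    by_contra hcon
    push Not at hcon
    have h1 : FFᶜ ⊆ ⋃ c ∈ Finset.range (3 ^ (2 ^ q₀)), Om c := by
      intro x hx
      rw [Set.mem_iUnion₂]
      refine ⟨⌊(3 : ℝ) ^ (2 ^ q₀) * Int.fract ((2 : ℝ) ^ n * x)⌋₊, ?_, hx, rfl⟩
      rw [Finset.mem_range, Nat.floor_lt (mul_nonneg (by positivity) (Int.fract_nonneg _))]
      push_cast
      have := Int.fract_lt_one ((2 : ℝ) ^ n * x)
      have h3 : (0 : ℝ) < 3 ^ (2 ^ q₀) := by positivity
      nlinarith
    have h2 : μ.real FFᶜ ≤ ∑ c ∈ Finset.range (3 ^ (2 ^ q₀)), μ.real (Om c) :=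
      (measureReal_mono h1 (measure_ne_top μ _)).trans (measureReal_biUnion_finset_le _ _)
    have h3 : ∑ c ∈ Finset.range (3 ^ (2 ^ q₀)), μ.real (Om c)
        < ∑ c ∈ Finset.range (3 ^ (2 ^ q₀)), (3 / 4) / 3 ^ (2 ^ q₀) := by
      apply Finset.sum_lt_sum_of_nonempty
      · exact Finset.nonempty_range_iff.2 (by positivity)
      · intro c _
        exact hcon c
    rw [Finset.sum_const, Finset.card_range, nsmul_eq_mul] at h3
    push_cast at h3
    rw [mul_div_cancel₀ _ (by positivity : (3 : ℝ) ^ (2 ^ q₀) ≠ 0)] at h3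
    linarith
  have hne : (Om c).Nonempty := by
    by_contra hcon
    rw [Set.not_nonempty_iff_eq_empty] at hcon
    rw [hcon, measureReal_empty] at hc
    have : (0 : ℝ) < (3 / 4) / 3 ^ (2 ^ q₀) := by positivity
    linarith
  obtain ⟨x', hx'⟩ := hne
  -- the main claim
  have key : ∀ x ∈ Om c, ∀ j, j ≤ K → ∃ z : ℤ, (2 : ℝ) ^ (n - j) * (x - x')
      = (Int.fract ((2 : ℝ) ^ n * x) - Int.fract ((2 : ℝ) ^ n * x')) / 2 ^ j + z := by
    intro x hx
    obtain ⟨θ, hθ⟩ : ∃ θ, θ = Int.fract ((2 : ℝ) ^ n * x) - Int.fract ((2 : ℝ) ^ n * x') :=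
      ⟨_, rfl⟩
    have hθ1 : |θ| * 3 ^ (2 ^ q₀) ≤ 1 := by
      have e1 : ⌊(3 : ℝ) ^ (2 ^ q₀) * Int.fract ((2 : ℝ) ^ n * x)⌋₊ = c := hx.2
      have e2 : ⌊(3 : ℝ) ^ (2 ^ q₀) * Int.fract ((2 : ℝ) ^ n * x')⌋₊ = c := hx'.2
      have f1 := Nat.floor_le
        (mul_nonneg (by positivity : (0 : ℝ) ≤ 3 ^ (2 ^ q₀)) (Int.fract_nonneg ((2 : ℝ) ^ n * x)))
      have f2 := Nat.floor_le
        (mul_nonneg (by positivity : (0 : ℝ) ≤ 3 ^ (2 ^ q₀)) (Int.fract_nonneg ((2 : ℝ) ^ n * x')))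
      have g1 := Nat.lt_floor_add_one ((3 : ℝ) ^ (2 ^ q₀) * Int.fract ((2 : ℝ) ^ n * x))
      have g2 := Nat.lt_floor_add_one ((3 : ℝ) ^ (2 ^ q₀) * Int.fract ((2 : ℝ) ^ n * x'))
      rw [e1] at f1 g1
      rw [e2] at f2 g2
      have h3 : (0 : ℝ) < 3 ^ (2 ^ q₀) := by positivity
      have h4 : |θ| * 3 ^ (2 ^ q₀) = |θ * 3 ^ (2 ^ q₀)| := by rw [abs_mul, abs_of_pos h3]
      rw [h4, abs_le, hθ]
      constructor <;> nlinarith
    rw [← hθ]
    intro j
    induction j with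
    | zero =>
      intro _
      refine ⟨⌊(2 : ℝ) ^ n * x⌋ - ⌊(2 : ℝ) ^ n * x'⌋, ?_⟩
      rw [hθ, Nat.sub_zero, pow_zero, div_one]
      have a1 := Int.floor_add_fract ((2 : ℝ) ^ n * x)
      have a2 := Int.floor_add_fract ((2 : ℝ) ^ n * x')
      push_cast
      linarith
    | succ j ih =>
      intro hjK
      obtain ⟨z, hz⟩ := ih (by omega)
      have hlevK : lev q₀ (j + 1) ≤ lev q₀ K := lev_mono q₀ hjK
      obtain ⟨q, hq⟩ : ∃ q, q = lev q₀ (j + 1) := ⟨_, rfl⟩
      have hqq : q₀ ≤ q := hq ▸ lev_ge q₀ (j + 1)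
      -- general formula for the lower indices
      have hgen : ∀ i, j + 1 ≤ i → i ≤ n →
          (2 : ℝ) ^ (n - i) * (x - x') = θ / 2 ^ i + z / 2 ^ (i - j) := by
        intro i h1 h2
        have e1 : (2 : ℝ) ^ (n - j) = 2 ^ (n - i) * 2 ^ (i - j) := by
          rw [← pow_add]; congr 1; omega
        have e2 : (2 : ℝ) ^ i = 2 ^ (i - j) * 2 ^ j := by
          rw [← pow_add]; congr 1; omega
        rw [e1] at hz
        rw [e2]
        have h3 : (0 : ℝ) < 2 ^ (i - j) := by positivity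
        have h4 : (0 : ℝ) < 2 ^ j := by positivity
        field_simp
        field_simp at hz
        linarith
      rcases Int.even_or_odd z with hev | hodd
      · obtain ⟨w, hw⟩ := hev
        refine ⟨w, ?_⟩
        rw [hgen (j + 1) le_rfl (by omega)]
        rw [hw]
        have : j + 1 - j = 1 := by omega
        rw [this]
        push_cast
        ring
      · exfalso
        have hMq := hW1 q hqq
        have hMq1 := hn₁ q hqq
        have hMq2 := hW2 q hqq
        have hWK : W q ≤ W (lev q₀ K) := hWm (hq ▸ hlevK)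
        -- few bad indices
        have hbad : ∀ y, y ∈ Om c →
            ((((RR q₀ q).filter (fun i => y ∈ B q i)).card : ℝ)) < W q / 8 := by
          intro y hy
          by_contra hcon
          push Not at hcon
          apply hy.1
          show y ∈ ⋃ q ∈ Finset.Ico q₀ Q, F q
          rw [Set.mem_iUnion₂]
          refine ⟨q, ?_, hcon⟩
          rw [Finset.mem_Ico]
          refine ⟨hqq, ?_⟩
          show q < lev q₀ K + 1
          omega
        -- the index set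
        have hsub : Finset.Icc (j + n₁ q) (j + W q) ⊆ RR q₀ q := by
          intro i hi
          rw [Finset.mem_Icc] at hi
          rw [hq]
          refine mem_RR (by omega) (by omega) (W q) (by omega) ?_
          rw [← hq]
          exact hMq2
        have hex : ∃ i ∈ Finset.Icc (j + n₁ q) (j + W q), x ∉ B q i ∧ x' ∉ B q i := by
          by_contra hcon
          push Not at hcon
          have h1 : Finset.Icc (j + n₁ q) (j + W q) ⊆
              ((RR q₀ q).filter (fun i => x ∈ B q i)) ∪ ((RR q₀ q).filter (fun i => x' ∈ B q i)) := by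
            intro i hi
            rw [Finset.mem_union, Finset.mem_filter, Finset.mem_filter]
            by_cases hxi : x ∈ B q i
            · exact Or.inl ⟨hsub hi, hxi⟩
            · exact Or.inr ⟨hsub hi, hcon i hi hxi⟩
          have h2 := (Finset.card_le_card h1).trans (Finset.card_union_le _ _)
          rw [Nat.card_Icc] at h2
          have h3 := hbad x hx
          have h4 := hbad x' hx'
          have h5 : ((j + W q + 1 - (j + n₁ q) : ℕ) : ℝ)
              ≤ (((RR q₀ q).filter (fun i => x ∈ B q i)).card : ℝ)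
                + (((RR q₀ q).filter (fun i => x' ∈ B q i)).card : ℝ) := by
            exact_mod_cast h2
          have h6 : W q + 1 ≤ 4 * (j + W q + 1 - (j + n₁ q)) := by omega
          have h7 : (W q : ℝ) + 1 ≤ 4 * ((j + W q + 1 - (j + n₁ q) : ℕ) : ℝ) := by
            exact_mod_cast h6
          linarith
        obtain ⟨i, hi, hxi, hxi'⟩ := hex
        rw [Finset.mem_Icc] at hi
        have hin : i ≤ n := by omega
        have g1 : (2 : ℝ) ^ (n - i) * x ∈ G q := by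
          by_contra hcon
          exact hxi hcon
        have g2 : (2 : ℝ) ^ (n - i) * x' ∈ G q := by
          by_contra hcon
          exact hxi' hcon
        have hform := hgen i (by omega) hin
        refine hdet q hqq (i - j) z (θ / 2 ^ i) ((2 : ℝ) ^ (n - i) * x') (by omega) (by omega)
          hodd ?_ g2 ?_
        · rw [abs_div, abs_of_pos (by positivity : (0 : ℝ) < 2 ^ i)]
          have e2 : (2 : ℝ) ^ i = 2 ^ (i - j) * 2 ^ j := by
            rw [← pow_add]; congr 1; omega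
          have e3 : |θ| / 2 ^ i * 3 ^ (2 ^ q) * 2 ^ (i - j) = |θ| * 3 ^ (2 ^ q) / 2 ^ j := by
            rw [e2]
            field_simp
          rw [e3, div_le_one (by positivity)]
          have e4 : 2 ^ q ≤ 2 ^ q₀ + j / 2 := by
            have := lev_pow q₀ (j + 1)
            rw [← hq] at this
            simpa using this
          calc |θ| * 3 ^ (2 ^ q) ≤ |θ| * 3 ^ (2 ^ q₀ + j / 2) := by
                apply mul_le_mul_of_nonneg_left _ (abs_nonneg _)
                exact pow_le_pow_right₀ (by norm_num) e4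
            _ = (|θ| * 3 ^ (2 ^ q₀)) * 3 ^ (j / 2) := by rw [pow_add]; ring
            _ ≤ 1 * 3 ^ (j / 2) := by
                apply mul_le_mul_of_nonneg_right hθ1 (by positivity)
            _ ≤ 4 ^ (j / 2) := by
                rw [one_mul]
                exact pow_le_pow_left₀ (by norm_num) (by norm_num) _
            _ = 2 ^ (2 * (j / 2)) := by rw [pow_mul]; norm_num
            _ ≤ 2 ^ j := pow_le_pow_right₀ (by norm_num) (by omega)
        · have : (2 : ℝ) ^ (n - i) * x' + z / 2 ^ (i - j) + θ / 2 ^ i = (2 : ℝ) ^ (n - i) * x := by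
            linarith
          rw [this]
          exact g1
  -- conclusion
  refine ⟨(2 : ℝ) ^ (n - K) * x', ?_⟩
  have hSm : MeasurableSet {x : ℝ | ∃ z : ℤ, |x - (2 : ℝ) ^ (n - K) * x' - z| ≤ (1 / 2) ^ K} := by
    rw [Set.ofPred_exists]
    refine MeasurableSet.iUnion fun z => ?_
    apply measurableSet_le _ measurable_const
    fun_prop
  have hpre := (preserving_two_pow h (n - K)).measure_preimage hSm.nullMeasurableSet
  have hle : μ.real (Om c)
      ≤ μ.real {x : ℝ | ∃ z : ℤ, |x - (2 : ℝ) ^ (n - K) * x' - z| ≤ (1 / 2) ^ K} := by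
    have : μ.real {x : ℝ | ∃ z : ℤ, |x - (2 : ℝ) ^ (n - K) * x' - z| ≤ (1 / 2) ^ K}
        = μ.real ((fun x : ℝ => Int.fract (2 ^ (n - K) * x)) ⁻¹'
          {x : ℝ | ∃ z : ℤ, |x - (2 : ℝ) ^ (n - K) * x' - z| ≤ (1 / 2) ^ K}) := by
      simp only [Measure.real, hpre]
    rw [this]
    refine measureReal_mono ?_ (measure_ne_top μ _)
    · intro x hx
      obtain ⟨z, hz⟩ := key x hx K le_rfl
      show ∃ z : ℤ, |Int.fract ((2 : ℝ) ^ (n - K) * x) - (2 : ℝ) ^ (n - K) * x' - z| ≤ (1 / 2) ^ K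
      refine ⟨z - ⌊(2 : ℝ) ^ (n - K) * x⌋, ?_⟩
      have a1 := Int.floor_add_fract ((2 : ℝ) ^ (n - K) * x)
      have b1 := Int.fract_nonneg ((2 : ℝ) ^ n * x)
      have b2 := Int.fract_lt_one ((2 : ℝ) ^ n * x)
      have b3 := Int.fract_nonneg ((2 : ℝ) ^ n * x')
      have b4 := Int.fract_lt_one ((2 : ℝ) ^ n * x')
      have e : Int.fract ((2 : ℝ) ^ (n - K) * x) - (2 : ℝ) ^ (n - K) * x'
          - ((z - ⌊(2 : ℝ) ^ (n - K) * x⌋ : ℤ) : ℝ)
          = (Int.fract ((2 : ℝ) ^ n * x) - Int.fract ((2 : ℝ) ^ n * x')) / 2 ^ K := by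
        push_cast
        linarith
      rw [e, abs_div, abs_of_pos (by positivity : (0 : ℝ) < 2 ^ K), one_div, inv_pow,
        div_eq_mul_inv]
      have : |Int.fract ((2 : ℝ) ^ n * x) - Int.fract ((2 : ℝ) ^ n * x')| ≤ 1 := by
        rw [abs_le]; constructor <;> linarith
      have h2 : (0 : ℝ) < (2 ^ K)⁻¹ := by positivity
      nlinarith
  exact hc.trans hle

end Helper58.LU
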