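import Mathlib
import Pool.Agent.Helper58.LU.Stage
import Pool.Agent.Helper40.LPA.Wing

/-!
# Lebesgue phases: a lower bound uniform in the measure

`uniform_phases`: for `×2, ×3`-invariant probability measures on the circle all of whose atoms are
small the sum `∑ (2 ^ q / q ^ γ) ν (Ph M n q)` is large, uniformly in the measure.
-/

set_option autoImplicit false

open MeasureTheory Finset Filter Topology

namespace Helper58.LU

open Pool.Agent.Helper61.FR Helper75.LP Helper75.DF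
open Pool.Agent.Helper17.KW (wing wing_mono wing_le wing_le_two_pow window_wing)
open Pool.Agent.Helper40.LPA (Gd fract_mem_Gd measurableSet_Gd isOpen_Ph exists_wing)

/-- If arcs of arbitrarily small length have mass at least `c` then there is an atom of mass at
least `c`. -/
theorem atom_of_arcs {μ : Measure ℝ} [IsProbabilityMeasure μ] {ν : Measure Tor}
    (hν : μ.map (fun x : ℝ => (x : Tor)) = ν) (c : ℝ)
    (hy : ∀ K : ℕ, ∃ y : ℝ, c ≤ μ.real {x | ∃ z : ℤ, |x - y - z| ≤ (1 / 2) ^ K}) :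
    ∃ a : Tor, c ≤ ν.real {a} := by
  have hmeas : Measurable (fun x : ℝ => (x : Tor)) := (AddCircle.continuous_mk' _).measurable
  have hp : IsProbabilityMeasure ν := by
    rw [← hν]
    exact Measure.isProbabilityMeasure_map hmeas.aemeasurable
  choose y hy using hy
  -- closed balls
  have hball : ∀ K, c ≤ ν.real (Metric.closedBall ((y K : ℝ) : Tor) ((1 / 2) ^ K)) := by
    intro K
    refine (hy K).trans ?_
    rw [measureReal_def, measureReal_def, ← hν,
      Measure.map_apply hmeas Metric.isClosed_closedBall.measurableSet]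
    refine ENNReal.toReal_mono (measure_ne_top μ _) (measure_mono ?_)
    rintro x ⟨z, hz⟩
    show ((x : ℝ) : Tor) ∈ Metric.closedBall ((y K : ℝ) : Tor) ((1 / 2) ^ K)
    rw [Metric.mem_closedBall, dist_eq_norm, ← AddCircle.coe_sub]
    have h2 : (((z : ℝ)) : Tor) = 0 := (AddCircle.coe_eq_zero_iff 1).2 ⟨z, by simp⟩
    have h1 : ((x - y K : ℝ) : Tor) = ((x - y K - z : ℝ) : Tor) := by
      rw [show ((x - y K - z : ℝ) : Tor) = ((x - y K : ℝ) : Tor) - ((z : ℝ) : Tor) from rfl, h2,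
        sub_zero]
    rw [h1]
    refine le_trans ?_ hz
    have := AddCircle.norm_eq (p := (1 : ℝ)) (x := x - y K - z)
    rw [this]
    simp only [inv_one, one_mul, mul_one]
    have h3 := round_le (x - y K - z) 0
    simpa using h3
  -- a limit point
  obtain ⟨a, φ, hφ, hlim⟩ := CompactSpace.tendsto_subseq fun K => ((y K : ℝ) : Tor)
  refine ⟨a, ?_⟩
  have hsub : ∀ m : ℕ, c ≤ ν.real (Metric.closedBall a (1 / (m + 1))) := by
    intro m
    have h1 : ∀ᶠ K in atTop, dist (((y (φ K) : ℝ)) : Tor) a < 1 / (2 * (m + 1)) :=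
      (Metric.tendsto_nhds.1 hlim) _ (by positivity)
    have h2 : Tendsto (fun K : ℕ => ((1 / 2 : ℝ)) ^ φ K) atTop (𝓝 0) :=
      (tendsto_pow_atTop_nhds_zero_of_lt_one (by norm_num) (by norm_num)).comp hφ.tendsto_atTop
    have h3 : ∀ᶠ K in atTop, ((1 / 2 : ℝ)) ^ φ K < 1 / (2 * (m + 1)) :=
      h2.eventually (gt_mem_nhds (by positivity))
    obtain ⟨K, hK1, hK2⟩ := (h1.and h3).exists
    refine (hball (φ K)).trans (measureReal_mono ?_ (measure_ne_top ν _))
    apply Metric.closedBall_subset_closedBall'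
    have h4 : (1 : ℝ) / (m + 1) = 1 / (2 * (m + 1)) + 1 / (2 * (m + 1)) := by
      field_simp
      ring
    rw [h4]
    linarith
  have hinter : ⋂ m : ℕ, Metric.closedBall a (1 / ((m : ℝ) + 1)) = {a} := by
    ext x
    simp only [Set.mem_iInter, Metric.mem_closedBall, Set.mem_singleton_iff]
    constructor
    · intro h
      by_contra hne
      have hd : 0 < dist x a := dist_pos.2 hne
      obtain ⟨m, hm⟩ := exists_nat_one_div_lt hd
      have := h m
      linarith
    · rintro rfl m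
      rw [dist_self]
      positivity
  have hanti : Antitone fun m : ℕ => Metric.closedBall a (1 / ((m : ℝ) + 1)) := by
    intro m m' hmm
    apply Metric.closedBall_subset_closedBall
    have : (m : ℝ) ≤ m' := by exact_mod_cast hmm
    exact one_div_le_one_div_of_le (by positivity) (by linarith)
  have ht := tendsto_measure_iInter_atTop (μ := ν)
    (s := fun m : ℕ => Metric.closedBall a (1 / ((m : ℝ) + 1)))
    (fun m : ℕ => (Metric.isClosed_closedBall (x := a)
      (ε := 1 / ((m : ℝ) + 1))).measurableSet.nullMeasurableSet)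
    hanti ⟨0, measure_ne_top ν _⟩
  rw [hinter] at ht
  have ht2 := (ENNReal.tendsto_toReal (measure_ne_top ν {a})).comp ht
  exact ge_of_tendsto ht2 (Eventually.of_forall hsub)

/-- **Uniform Lebesgue phases**: for `×2, ×3`-invariant probability measures with small atoms the
weighted sum of the probabilities of the phases is large. -/
theorem uniform_phases {γ : ℝ} (hγ : γ < 3 / 2) (M : ℕ → ℕ)
    (hM : Tendsto M atTop atTop) (hMγ : ∀ᶠ q : ℕ in atTop, (M q : ℝ) ≤ (q : ℝ) ^ γ) (n : ℕ)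
    (B : ℝ) :
    ∃ c : ℝ, 0 < c ∧ ∀ ν : Measure Tor, IsProbabilityMeasure ν →
      MeasurePreserving (fun x : Tor => (2 : ℕ) • x) ν ν →
      MeasurePreserving (fun x : Tor => (3 : ℕ) • x) ν ν → (∀ x, ν.real {x} < c) →
      ∃ Q : ℕ, B ≤ ∑ q ∈ range Q, (2 ^ q / (q : ℝ) ^ γ) * ν.real (Ph M n q) := by
  obtain ⟨γ₁, hγ₁⟩ : ∃ γ₁, γ₁ = (γ + 3 / 2) / 2 := ⟨_, rfl⟩
  have hg1 : γ < γ₁ := by rw [hγ₁]; linarith
  have hg2 : γ₁ < 3 / 2 := by rw [hγ₁]; linarith
  obtain ⟨γ', h1, h1', hw⟩ := exists_wing hg2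
  have hW := window_wing h1'
  obtain ⟨r, hr⟩ := two_point M (wing γ') hM hW n
  obtain ⟨q₁, hq₁⟩ := hw (r + 1)
  obtain ⟨q₂, hq₂⟩ := eventually_atTop.mp hMγ
  have hgap : Tendsto (fun q : ℕ => (q : ℝ) ^ (γ₁ - γ)) atTop atTop :=
    (tendsto_rpow_atTop (by linarith)).comp tendsto_natCast_atTop_atTop
  obtain ⟨q₃, hq₃⟩ := eventually_atTop.mp (hgap.eventually_ge_atTop (128 * |B|))
  obtain ⟨q₀, hq₀⟩ : ∃ q₀, q₀ = q₁ + q₂ + q₃ + r + 1 := ⟨_, rfl⟩
  refine ⟨(3 / 4) / 3 ^ (2 ^ q₀), by positivity, fun ν hνp h2 h3 hat => ?_⟩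
  obtain ⟨μ, hμ, hν, -⟩ := exists_inv23 ν h2 h3
  have hprob := hμ.prob
  have hGd : ∀ q, μ.real (Gd M n q)ᶜ = ν.real (Ph M n q) := by
    intro q
    have h4 : (Gd M n q)ᶜ = (fun x : ℝ => (x : Tor)) ⁻¹' Ph M n q := by
      ext x
      exact not_not
    rw [h4, measureReal_def, measureReal_def,
      ← Measure.map_apply measurable_coe_circle (isOpen_Ph M n q).measurableSet, hν]
  -- powers
  have hpow : ∀ q, q₀ ≤ q → 0 < (q : ℝ) ^ γ ∧ (M q : ℝ) ≤ (q : ℝ) ^ γ₁ ∧
      128 * |B| * (q : ℝ) ^ γ ≤ wing γ' q := by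
    intro q hq
    have hq1 : (1 : ℝ) ≤ q := by exact_mod_cast (by omega : 1 ≤ q)
    have hpos : 0 < (q : ℝ) ^ γ := Real.rpow_pos_of_pos (by linarith) _
    refine ⟨hpos, ?_, ?_⟩
    · exact (hq₂ q (by omega)).trans (Real.rpow_le_rpow_of_exponent_le hq1 hg1.le)
    · have h5 := hq₃ q (by omega)
      have h6 : (q : ℝ) ^ γ₁ = (q : ℝ) ^ (γ₁ - γ) * (q : ℝ) ^ γ := by
        rw [← Real.rpow_add (by linarith)]
        congr 1
        ring
      refine le_trans ?_ (hq₁ q (by omega)).1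
      rw [h6]
      exact mul_le_mul_of_nonneg_right h5 hpos.le
  obtain ⟨Q, hQ⟩ : ∃ Q : ℕ, 1 / 128 <
      ∑ q ∈ Ico q₀ Q, (2 ^ q / wing γ' q : ℝ) * μ.real (Gd M n q)ᶜ := by
    by_contra hcon
    push Not at hcon
    have hc := stage3E hμ q₀ (fun q => M q + (r + 1)) (wing γ') (fun q _ => by
        show 1 ≤ M q + (r + 1)
        omega) (wing_mono (by linarith)) (fun q hq =>
          (hq₁ q (by omega)).2 (M q) (hpow q hq).2.1)
        (fun q _ => wing_le_two_pow h1 (by linarith) q) (Gd M n)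
      (measurableSet_Gd M n) (fract_mem_Gd M n) ?_ hcon
    · obtain ⟨a, ha⟩ := atom_of_arcs hν _ hc
      exact absurd (hat a) (not_lt.2 ha)
    · intro q hq k d τ x h5 h6 hd hτ hx hx'
      rcases hr q (by omega) k (by omega) h6 d hd τ x hτ with h7 | h7
      · exact hx h7
      · exact hx' h7
  refine ⟨Q, ?_⟩
  have h5 : ∑ q ∈ Ico q₀ Q, (2 ^ q / (q : ℝ) ^ γ) * ν.real (Ph M n q) ≤
      ∑ q ∈ range Q, (2 ^ q / (q : ℝ) ^ γ) * ν.real (Ph M n q) := by
    refine sum_le_sum_of_subset_of_nonneg ?_ fun q _ _ => by positivity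
    intro q hq
    rw [mem_Ico] at hq
    exact mem_range.2 hq.2
  refine le_trans ?_ h5
  have h6 : 128 * |B| * ∑ q ∈ Ico q₀ Q, (2 ^ q / wing γ' q : ℝ) * μ.real (Gd M n q)ᶜ ≤
      ∑ q ∈ Ico q₀ Q, (2 ^ q / (q : ℝ) ^ γ) * ν.real (Ph M n q) := by
    rw [mul_sum]
    refine sum_le_sum fun q hq => ?_
    rw [mem_Ico] at hq
    obtain ⟨h7, h8, h9⟩ := hpow q hq.1
    rw [hGd, ← mul_assoc]
    refine mul_le_mul_of_nonneg_right ?_ measureReal_nonneg
    have h10 : (0 : ℝ) < wing γ' q := by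
      have h11 := (hq₁ q (by omega)).1
      have h12 : 0 < (q : ℝ) ^ γ₁ := Real.rpow_pos_of_pos (by exact_mod_cast (by omega : 0 < q)) _
      linarith
    rw [mul_div_assoc', div_le_div_iff₀ h10 h7]
    have h13 : (0 : ℝ) ≤ 2 ^ q := by positivity
    nlinarith
  have h7 : |B| ≤ 128 * |B| * ∑ q ∈ Ico q₀ Q, (2 ^ q / wing γ' q : ℝ) * μ.real (Gd M n q)ᶜ := by
    have h8 : (0 : ℝ) ≤ |B| := abs_nonneg B
    nlinarith
  linarith [le_abs_self B]

end Helper58.LU
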