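import Mathlib
import Pool.Agent.Helper58.LU.Circle
import Pool.Agent.Helper40.TMA.TraceBase

/-!
# Uniform Lebesgue phases: traces of large conditional dimension

* `period_of_atom`: if an ergodic measure has an atom of mass `c` then `(6 ^ k - 1) x = 0` almost
  everywhere for some `1 ≤ k ≤ 1 / c`.
* `rank_of_atom`: the conditional dimension is at most `6 ^ ⌊1 / c⌋`.
* `uniform_trace`: traces of large conditional dimension have many Lebesgue phases.
-/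

set_option autoImplicit false

open MeasureTheory Filter Topology Finset Helper17.FU Helper17.FUGroup Helper91.TTT
open scoped ENNReal ComplexConjugate ComplexOrder InnerProductSpace

namespace Helper58.LU

open Helper58.FX (ft Erg T)
open Helper75.LP (Ph erg_sets)

theorem period_of_atom {μ : Measure (AddCircle (1 : ℝ))} [IsProbabilityMeasure μ]
    (h2 : MeasurePreserving (T 2) μ μ) (h3 : MeasurePreserving (T 3) μ μ) (hE : Erg (ft μ))
    {c : ℝ} (hc : 0 < c) {x0 : AddCircle (1 : ℝ)} (hx0 : c ≤ μ.real {x0}) :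
    ∃ k : ℕ, 1 ≤ k ∧ k ≤ ⌊1 / c⌋₊ ∧ ∫ x, (fourier ((6 : ℤ) ^ k - 1) x : ℂ) ∂μ = 1 := by
  classical
  -- the atoms along the orbit
  have hstep : ∀ (y : AddCircle (1 : ℝ)), c ≤ μ.real {y} → c ≤ μ.real {(6 : ℕ) • y} := by
    have hone : ∀ (s : ℕ), MeasurePreserving (T s) μ μ → ∀ (y : AddCircle (1 : ℝ)),
        c ≤ μ.real {y} → c ≤ μ.real {s • y} := by
      intro s hs y hy
      have h4 := hs.measure_preimage (measurableSet_singleton (s • y)).nullMeasurableSet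
      refine hy.trans ?_
      rw [measureReal_def, measureReal_def, ← h4]
      refine ENNReal.toReal_mono (measure_ne_top μ _) (measure_mono ?_)
      intro z hz
      rw [Set.mem_singleton_iff] at hz
      subst hz
      exact Set.mem_singleton _
    intro y hy
    have h5 := hone 3 h3 _ (hone 2 h2 y hy)
    rwa [← mul_smul, show 3 * 2 = 6 by norm_num] at h5
  have hpow : ∀ n : ℕ, c ≤ μ.real {(6 ^ n : ℕ) • x0} := by
    intro n
    induction n with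
    | zero => simpa using hx0
    | succ n ih =>
      have h5 := hstep _ ih
      rwa [← mul_smul, ← pow_succ'] at h5
  set N := ⌊1 / c⌋₊ with hN
  obtain ⟨i, j, hij, hjN, heq⟩ : ∃ i j : ℕ, i < j ∧ j ≤ N ∧ (6 ^ i : ℕ) • x0 = (6 ^ j : ℕ) • x0 := by
    by_contra hcon
    push Not at hcon
    have hinj : Set.InjOn (fun n : ℕ => (6 ^ n : ℕ) • x0) (range (N + 1) : Finset ℕ) := by
      intro a ha b hb hab
      rw [Finset.coe_range, Set.mem_Iio] at ha hb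
      rcases lt_trichotomy a b with h | h | h
      · exact absurd hab (hcon a b h (by omega))
      · exact h
      · exact absurd hab.symm (hcon b a h (by omega))
    have h6 : (((range (N + 1)).image fun n : ℕ => (6 ^ n : ℕ) • x0).card : ℝ) * c ≤ 1 := by
      rw [← nsmul_eq_mul, ← Finset.sum_const]
      calc ∑ _y ∈ (range (N + 1)).image fun n : ℕ => (6 ^ n : ℕ) • x0, c
          ≤ ∑ y ∈ (range (N + 1)).image fun n : ℕ => (6 ^ n : ℕ) • x0, μ.real {y} := by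
            refine Finset.sum_le_sum fun y hy => ?_
            obtain ⟨n, -, rfl⟩ := Finset.mem_image.1 hy
            exact hpow n
        _ = μ.real ((range (N + 1)).image fun n : ℕ => (6 ^ n : ℕ) • x0 :
              Finset (AddCircle (1 : ℝ))) := by
            rw [sum_measureReal_singleton]
        _ ≤ 1 := measureReal_le_one
    rw [Finset.card_image_of_injOn hinj, card_range] at h6
    have h7 : 1 / c < N + 1 := Nat.lt_floor_add_one _
    rw [div_lt_iff₀ hc] at h7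
    push_cast at h6
    linarith
  refine ⟨j - i, by omega, by omega, ?_⟩
  set q : ℤ := (6 : ℤ) ^ (j - i) - 1 with hq
  set A : Set (AddCircle (1 : ℝ)) := {x | q • x = 0} with hA
  have hAm : MeasurableSet A :=
    (isClosed_singleton.preimage (continuous_zsmul q)).measurableSet
  have hAs : ∀ s : ℕ, A ⊆ T s ⁻¹' A := by
    intro s x hx
    show q • (s • x) = 0
    rw [smul_comm, show q • x = 0 from hx, smul_zero]
  have hxA : (6 ^ i : ℕ) • x0 ∈ A := by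
    show q • ((6 ^ i : ℕ) • x0) = 0
    rw [hq, sub_smul, one_smul]
    have h5 : ((6 : ℤ) ^ (j - i)) • ((6 ^ i : ℕ) • x0) = (6 ^ j : ℕ) • x0 := by
      rw [← natCast_zsmul, ← mul_smul, ← natCast_zsmul]
      congr 1
      push_cast
      rw [← pow_add]
      congr 1
      omega
    rw [h5, ← heq, sub_self]
  have hpos : μ A ≠ 0 := by
    intro h0
    have h5 : μ.real {(6 ^ i : ℕ) • x0} ≤ μ.real A :=
      measureReal_mono (Set.singleton_subset_iff.2 hxA) (measure_ne_top μ _)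
    have h6 : μ.real A = 0 := by rw [measureReal_def, h0, ENNReal.toReal_zero]
    have := hpow i
    linarith
  rcases erg_sets h2 h3 hE A hAm (hAs 2) (hAs 3) with h | h
  · exact absurd h hpos
  · have hae : ∀ᵐ x ∂μ, x ∈ A := by
      rw [ae_iff]
      exact (prob_compl_eq_zero_iff hAm).2 h
    have h5 : ∫ x, (fourier q x : ℂ) ∂μ = ∫ _x, (1 : ℂ) ∂μ := by
      refine integral_congr_ae ?_
      filter_upwards [hae] with x hx
      rw [fourier_apply, show q • x = 0 from hx, AddCircle.toCircle_zero]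
      rfl
    rw [h5]
    simp

/-- a nontrivial kernel bounds the dimension -/
theorem rank_of_kernel {G : Type} [Group G] {φ : G → ℂ} [Fact (PD φ)] (hφ1 : φ 1 = 1)
    (hφc : ∀ g h : G, φ (h * g * h⁻¹) = φ g)
    (P τ : G) (hP : ∀ j : ℤ, P * τ ^ j * P⁻¹ = τ ^ (6 * j)) {M : ℤ} (hM : M ≠ 0)
    (hker : φ (τ ^ M) = 1) (T : Set G)
    (hT : ∀ n ∈ T, ∃ (K : ℕ) (m : ℤ), P ^ K * n * (P ^ K)⁻¹ = τ ^ m) :
    Module.rank ℂ (Submodule.span ℂ {F : G → ℂ | ∃ n : G, n ∈ T ∧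
      F = fun x => φ (n * x)}) ≤ (M.natAbs : Cardinal) := by
  have hPK : ∀ (K : ℕ) (j : ℤ), P ^ K * τ ^ j * (P ^ K)⁻¹ = τ ^ (6 ^ K * j) := fun K j =>
    conj_iter hP K j
  obtain ⟨a0, d, hd, hdvd⟩ := exists_period M.natAbs (Int.natAbs_pos.mpr hM)
  have hsub : {F : G → ℂ | ∃ n : G, n ∈ T ∧ F = fun x => φ (n * x)} ⊆
      Set.range (fun j : Fin M.natAbs => fun x : G => φ (τ ^ (j : ℕ) * x)) := by
    rintro F ⟨n, hn, rfl⟩
    obtain ⟨K, m, hKm⟩ := hT n hn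
    -- a common exponent
    set t := K with ht
    have hKt : K ≤ d * t := by
      rw [ht]; exact Nat.le_mul_of_pos_left K (by omega)
    set m' : ℤ := 6 ^ (d * t - K) * m with hm'
    have hconj : P ^ (d * t) * n * (P ^ (d * t))⁻¹ = τ ^ m' := by
      have e : P ^ (d * t) = P ^ (d * t - K) * P ^ K := by
        rw [← pow_add]; congr 1; omega
      rw [e]
      have e2 : P ^ (d * t - K) * P ^ K * n * (P ^ (d * t - K) * P ^ K)⁻¹ =
          P ^ (d * t - K) * (P ^ K * n * (P ^ K)⁻¹) * (P ^ (d * t - K))⁻¹ := by group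
      rw [e2, hKm, hPK]
    set j : ℤ := m' % (M.natAbs : ℤ) with hj
    have hMpos : (0 : ℤ) < (M.natAbs : ℤ) := by
      exact_mod_cast Int.natAbs_pos.mpr hM
    have hj0 : 0 ≤ j := Int.emod_nonneg _ hMpos.ne'
    have hj1 : j < (M.natAbs : ℤ) := Int.emod_lt_of_pos _ hMpos
    have hdiv : (M.natAbs : ℤ) ∣ 6 ^ a0 * (m' - 6 ^ (d * t) * j) := by
      have e : (6 : ℤ) ^ a0 * (m' - 6 ^ (d * t) * j) = 6 ^ a0 * (m' - j) -
          (6 ^ a0 * (6 ^ (d * t) - 1)) * j := by ring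
      rw [e]
      refine dvd_sub (Dvd.dvd.mul_left ?_ _) ((period_mul hdvd t).mul_right j)
      exact Int.dvd_self_sub_emod
    obtain ⟨i, hi⟩ := hdiv
    have ha : φ (n * (τ ^ j)⁻¹) = 1 := by
      have e : P ^ (a0 + d * t) * (n * (τ ^ j)⁻¹) * (P ^ (a0 + d * t))⁻¹ =
          τ ^ ((M.natAbs : ℤ) * i) := by
        rw [pow_add]
        have e2 : P ^ a0 * P ^ (d * t) * (n * (τ ^ j)⁻¹) * (P ^ a0 * P ^ (d * t))⁻¹ =
            (P ^ a0 * (P ^ (d * t) * n * (P ^ (d * t))⁻¹) * (P ^ a0)⁻¹) *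
            (P ^ a0 * (P ^ (d * t) * τ ^ j * (P ^ (d * t))⁻¹) * (P ^ a0)⁻¹)⁻¹ := by group
        rw [e2, hconj, hPK, hPK, hPK, ← zpow_neg, ← zpow_add, ← hi]
        congr 1
        ring
      rw [← hφc (n * (τ ^ j)⁻¹) (P ^ (a0 + d * t)), e]
      have hmem : τ ^ M ∈ kerφ φ hφ1 := hker
      have hmem2 : τ ^ ((M.natAbs : ℤ) * i) ∈ kerφ φ hφ1 := by
        rcases Int.natAbs_eq M with h | h
        · rw [zpow_mul, ← h]
          exact Subgroup.zpow_mem _ hmem i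
        · have e3 : (M.natAbs : ℤ) * i = M * (-i) := by rw [h]; simp
          rw [e3, zpow_mul]
          exact Subgroup.zpow_mem _ hmem (-i)
      exact hmem2
    refine ⟨⟨j.toNat, ?_⟩, ?_⟩
    · have := Int.toNat_of_nonneg hj0
      omega
    · funext x
      show φ (τ ^ j.toNat * x) = φ (n * x)
      have e : n * x = (n * (τ ^ j)⁻¹) * (τ ^ j * x) := by group
      have e2 : τ ^ j.toNat = τ ^ j := by
        rw [← zpow_natCast, Int.toNat_of_nonneg hj0]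
      rw [e2]
      conv_rhs => rw [e]
      rw [kernel_mul hφ1 ha]
  refine (rank_span_le _).trans ((Cardinal.mk_le_mk_of_subset hsub).trans
    (Cardinal.mk_range_le.trans ?_))
  simp

variable {s2 s3 t : Equiv.Perm ℚ}

/-- An atom of mass `c` bounds the conditional dimension. -/
theorem rank_of_atom (h2 : ∀ x : ℚ, s2 x = 2 * x) (h3 : ∀ x : ℚ, s3 x = 3 * x)
    (ht : ∀ x : ℚ, t x = x + 1) {τ : GG s2 s3 t} (hτ : (τ : Equiv.Perm ℚ) = t)
    {φ : GG s2 s3 t → ℂ} (hφ : φ ∈ Set.extremePoints ℝ (TR (GG s2 s3 t)))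
    {μ : Measure (AddCircle (1 : ℝ))} [IsProbabilityMeasure μ]
    (hμ : ∀ n : ℤ, ∫ x, (fourier n x : ℂ) ∂μ = φ (τ ^ n))
    (hm2 : MeasurePreserving (T 2) μ μ) (hm3 : MeasurePreserving (T 3) μ μ)
    {c : ℝ} (hc : 0 < c) {x0 : AddCircle (1 : ℝ)} (hx0 : c ≤ μ.real {x0}) :
    Module.rank ℂ (Submodule.span ℂ {F : GG s2 s3 t → ℂ | ∃ n : GG s2 s3 t,
      IsTr n ∧ F = fun x => φ (n * x)}) ≤ ((6 ^ ⌊1 / c⌋₊ : ℕ) : Cardinal) := by
  have hφ1 : φ 1 = 1 := hφ.1.1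
  have hφc := hφ.1.2.1
  have hFφ : Fact (PD φ) := ⟨hφ.1.2.2⟩
  obtain ⟨σ2, σ3, τ', hσ2, hσ3, hτ', e2, e3, ecomm, hgen⟩ := relations h2 h3 ht
  have hττ' : τ' = τ := Subtype.ext (by rw [hτ', hτ])
  rw [hττ'] at e2 e3 hgen
  have hP : ∀ j : ℤ, (σ2 * σ3) * τ ^ j * (σ2 * σ3)⁻¹ = τ ^ (6 * j) := by
    intro j
    have e : (σ2 * σ3) * τ ^ j * (σ2 * σ3)⁻¹ = σ2 * (σ3 * τ ^ j * σ3⁻¹) * σ2⁻¹ := by group
    rw [e, conj_pow3 e3, Helper17.FU.conj_pow e2]
    congr 1; ring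
  have hE := Pool.Agent.Helper40.TMA.erg_of_extreme h2 h3 ht hτ hφ hμ
  obtain ⟨k, hk1, hk2, hk⟩ := period_of_atom hm2 hm3 hE hc hx0
  have hk6 : (6 : ℤ) ^ k - 1 ≠ 0 := by
    have : (6 : ℤ) ^ 1 ≤ 6 ^ k := pow_le_pow_right₀ (by norm_num) hk1
    omega
  have hker : φ (τ ^ ((6 : ℤ) ^ k - 1)) = 1 := by rw [← hμ]; exact hk
  refine (rank_of_kernel hφ1 hφc (σ2 * σ3) τ hP hk6 hker
    {n | IsTr n} (fun n hn => trans_conj h2 h3 ht hσ2 hσ3 hτ n hn)).trans ?_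
  have h5 : ((6 : ℤ) ^ k - 1).natAbs ≤ 6 ^ ⌊1 / c⌋₊ := by
    have h6 : (6 : ℤ) ^ k ≤ 6 ^ ⌊1 / c⌋₊ := pow_le_pow_right₀ (by norm_num) hk2
    have h7 : (1 : ℤ) ≤ 6 ^ k := one_le_pow₀ (by norm_num)
    have h8 : ((6 ^ ⌊1 / c⌋₊ : ℕ) : ℤ) = 6 ^ ⌊1 / c⌋₊ := by push_cast; rfl
    omega
  exact_mod_cast h5

/-- **Uniform Lebesgue phases.**  Extreme traces of large conditional dimension, finite or infinite,
have many Lebesgue phases. -/
theorem uniform_trace (h2 : ∀ x : ℚ, s2 x = 2 * x) (h3 : ∀ x : ℚ, s3 x = 3 * x)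
    (ht : ∀ x : ℚ, t x = x + 1) {τ : GG s2 s3 t} (hτ : (τ : Equiv.Perm ℚ) = t)
    {γ : ℝ} (hγ : γ < 3 / 2) (M : ℕ → ℕ)
    (hM : Tendsto M atTop atTop) (hMγ : ∀ᶠ q : ℕ in atTop, (M q : ℝ) ≤ (q : ℝ) ^ γ) (n : ℕ)
    (B : ℝ) :
    ∃ D : ℕ, ∀ φ : GG s2 s3 t → ℂ, φ ∈ Set.extremePoints ℝ (TR (GG s2 s3 t)) →
      (D : Cardinal) < Module.rank ℂ (Submodule.span ℂ {F : GG s2 s3 t → ℂ | ∃ n : GG s2 s3 t,
        IsTr n ∧ F = fun x => φ (n * x)}) →
      ∀ μ : Measure (AddCircle (1 : ℝ)), IsProbabilityMeasure μ →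
        (∀ m : ℤ, ∫ x, (fourier m x : ℂ) ∂μ = φ (τ ^ m)) →
        MeasurePreserving (T 2) μ μ → MeasurePreserving (T 3) μ μ →
        ∃ Q : ℕ, B ≤ ∑ q ∈ range Q, (2 ^ q / (q : ℝ) ^ γ) * μ.real (Ph M n q) := by
  obtain ⟨c, hc, h⟩ := uniform_phases hγ M hM hMγ n B
  refine ⟨6 ^ ⌊1 / c⌋₊, fun φ hφ hD μ hμp hμ hm2 hm3 => ?_⟩
  refine h μ hμp hm2 hm3 fun x => ?_
  by_contra hcon
  push Not at hcon
  exact absurd (rank_of_atom h2 h3 ht hτ hφ hμ hm2 hm3 hc hcon) (not_le.2 hD)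

end Helper58.LU
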