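import Mathlib
import Pool.Agent.Helper40.LPA.Half
import Pool.Agent.Helper58.FX.Defs
import Pool.Agent.Helper91.TTT.Exotic

/-!
# Traces of bounded conditional dimension have no Lebesgue phases

* `zeros_card`: a trigonometric polynomial with `d` terms has fewer than `d` zeros.
* `exists_char_of_rank`: for conditional dimension at most `D` the character of order `(2 ^ D)!` is
  trivial.
* `no_phases`: for every `D` there is a quality `n` such that no extreme trace of conditional
  dimension at most `D` has a phase of quality `n`, at any scale and for any window.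
-/

set_option autoImplicit false

open MeasureTheory Filter Topology Finset Helper17.FU Helper17.FUGroup Helper91.TTT
open scoped ENNReal ComplexConjugate ComplexOrder InnerProductSpace

namespace Helper58.LU

open Helper58.FX (ft Erg T)
open Helper75.LP (Ph Half)
open Pool.Agent.Helper61.FR (cavg)

/-- A nonzero trigonometric polynomial with `D + 1` terms has at most `D` zeros. -/
theorem zeros_card (D : ℕ) (c : ℕ → ℂ) (hc : ∃ j, j < D + 1 ∧ c j ≠ 0) :
    ∃ Z : Finset (AddCircle (1 : ℝ)), Z.card ≤ D ∧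
      ∀ x : AddCircle (1 : ℝ), ∑ j ∈ range (D + 1), c j * (fourier (j : ℤ) x : ℂ) = 0 → x ∈ Z := by
  classical
  obtain ⟨j₀, hj₀, hc₀⟩ := hc
  set p : Polynomial ℂ := ∑ j ∈ range (D + 1), Polynomial.monomial j (c j) with hp
  have hp0 : p ≠ 0 := by
    intro h
    have h1 : p.coeff j₀ = c j₀ := by
      rw [hp, Polynomial.finsetSum_coeff]
      simp only [Polynomial.coeff_monomial]
      rw [Finset.sum_ite_eq']
      simp [hj₀]
    rw [h, Polynomial.coeff_zero] at h1
    exact hc₀ h1.symm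
  have hdeg : p.natDegree ≤ D := by
    rw [hp]
    refine Polynomial.natDegree_sum_le_of_forall_le _ _ fun j hj => ?_
    refine (Polynomial.natDegree_monomial_le _).trans ?_
    rw [Finset.mem_range] at hj
    omega
  have hroots : p.roots.toFinset.card ≤ D :=
    (Multiset.toFinset_card_le _).trans ((Polynomial.card_roots' p).trans hdeg)
  have hinj : Set.InjOn (fun x : AddCircle (1 : ℝ) => (fourier 1 x : ℂ))
      ((fun x : AddCircle (1 : ℝ) => (fourier 1 x : ℂ)) ⁻¹' (p.roots.toFinset : Set ℂ)) := by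
    intro x _ y _ hxy
    simp only [fourier_one] at hxy
    exact AddCircle.injective_toCircle one_ne_zero (Subtype.ext hxy)
  refine ⟨p.roots.toFinset.preimage (fun x : AddCircle (1 : ℝ) => (fourier 1 x : ℂ)) hinj, ?_, ?_⟩
  · refine (Finset.card_le_card_of_injOn (fun x : AddCircle (1 : ℝ) => (fourier 1 x : ℂ))
      (fun x hx => ?_) (fun x hx y hy => ?_)).trans hroots
    · exact Finset.mem_preimage.1 hx
    · exact hinj (Finset.mem_preimage.1 hx) (Finset.mem_preimage.1 hy)
  · intro x hx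
    rw [Finset.mem_preimage, Multiset.mem_toFinset, Polynomial.mem_roots hp0, Polynomial.IsRoot.def,
      hp, Polynomial.eval_finsetSum]
    simp only [Polynomial.eval_monomial]
    rw [← hx]
    refine Finset.sum_congr rfl fun j _ => ?_
    congr 1
    rw [fourier_one, fourier_apply, ← Circle.coe_pow, ← AddCircle.toCircle_nsmul, natCast_zsmul]

/-- For an invariant measure supported on at most `K` points the character of order `(2 ^ K)!` is
trivial. -/
theorem trivial_of_card {ν : Measure (AddCircle (1 : ℝ))}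
    (h2 : MeasurePreserving (T 2) ν ν) (Z : Finset (AddCircle (1 : ℝ))) (K : ℕ) (hK : Z.card ≤ K)
    (hν : ∀ᵐ x ∂ν, x ∈ Z) : ∀ᵐ x ∂ν, (2 ^ K).factorial • x = 0 := by
  have h1 : ∀ᵐ x ∂ν, ∀ i : ℕ, (2 ^ i : ℕ) • x ∈ Z := by
    rw [ae_all_iff]
    intro i
    exact (Pool.Agent.Helper40.LPA.preserving_nsmul h2 i).quasiMeasurePreserving.ae hν
  filter_upwards [h1] with x hx
  have h3 : ∃ i ∈ Finset.range (K + 1), ∃ j ∈ Finset.range (K + 1), i ≠ j ∧
      (2 ^ i : ℕ) • x = (2 ^ j : ℕ) • x := by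
    apply Finset.exists_ne_map_eq_of_card_lt_of_maps_to (t := Z)
    · rw [Finset.card_range]
      omega
    · intro i _
      exact hx i
  obtain ⟨i, hi, j, hj, hij, he⟩ := h3
  rw [Finset.mem_range] at hi hj
  have key : ∀ a b : ℕ, a < b → b ≤ K → (2 ^ a : ℕ) • x = (2 ^ b : ℕ) • x →
      (2 ^ K).factorial • x = 0 := by
    intro a b hab hb he
    have h5 : (2 ^ b - 2 ^ a : ℕ) • x = 0 := by
      have h6 : 2 ^ a ≤ 2 ^ b := Nat.pow_le_pow_right (by norm_num) hab.le
      rw [sub_nsmul _ h6, he, add_neg_cancel]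
    have h7 : 2 ^ b - 2 ^ a ∣ (2 ^ K).factorial := by
      apply Nat.dvd_factorial
      · have : 2 ^ a < 2 ^ b := Nat.pow_lt_pow_right (by norm_num) hab
        omega
      · exact (Nat.sub_le _ _).trans (Nat.pow_le_pow_right (by norm_num) hb)
    obtain ⟨c, hc⟩ := h7
    rw [hc, mul_comm, mul_smul, h5, smul_zero]
  rcases lt_or_gt_of_ne hij with h4 | h4
  · exact key i j h4 (by omega) he
  · exact key j i h4 (by omega) he.symm

/-- A measure whose Fourier coefficients satisfy a recurrence of length `D + 1` lives on at most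
`D` points. -/
theorem support_card (ν : Measure (AddCircle (1 : ℝ))) [IsProbabilityMeasure ν] (D : ℕ) (c : ℕ → ℂ)
    (hc : ∃ j, j < D + 1 ∧ c j ≠ 0)
    (h0 : ∀ m : ℤ, ∑ j ∈ range (D + 1), c j * ft ν (j + m) = 0) :
    ∃ Z : Finset (AddCircle (1 : ℝ)), Z.card ≤ D ∧ ∀ᵐ x ∂ν, x ∈ Z := by
  obtain ⟨Z, hZ, hmem⟩ := zeros_card D c hc
  refine ⟨Z, hZ, ?_⟩
  set P : AddCircle (1 : ℝ) → ℂ := fun x => ∑ j ∈ range (D + 1), c j * (fourier (j : ℤ) x : ℂ)
    with hP
  have hPc : Continuous P := by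
    rw [hP]; fun_prop
  have hint : ∀ f : AddCircle (1 : ℝ) → ℂ, Continuous f → Integrable f ν := fun f hf =>
    Helper17.TranslM.integrable_cont ν hf
  have h1 : ∀ m : ℤ, ∫ x, P x * (fourier m x : ℂ) ∂ν = 0 := by
    intro m
    rw [← h0 m]
    have h2 : ∀ x, P x * (fourier m x : ℂ) =
        ∑ j ∈ range (D + 1), c j * (fourier ((j : ℤ) + m) x : ℂ) := by
      intro x
      rw [hP]
      simp only
      rw [Finset.sum_mul]
      refine Finset.sum_congr rfl fun j _ => ?_
      rw [fourier_add, mul_assoc]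
    simp only [h2]
    rw [integral_finsetSum _ fun j _ => hint _ (by fun_prop)]
    refine Finset.sum_congr rfl fun j _ => ?_
    rw [integral_const_mul]
    rfl
  have h2 : ∫ x, ‖P x‖ ^ 2 ∂ν = 0 := by
    have h3 : ((∫ x, ‖P x‖ ^ 2 ∂ν : ℝ) : ℂ) = ∫ x, P x * conj (P x) ∂ν := by
      rw [← integral_complex_ofReal]
      refine integral_congr_ae (Eventually.of_forall fun x => ?_)
      simp only
      rw [Complex.mul_conj, Complex.normSq_eq_norm_sq]
    have h4 : ∫ x, P x * conj (P x) ∂ν = 0 := by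
      have h5 : ∀ x, P x * conj (P x) =
          ∑ j ∈ range (D + 1), conj (c j) * (P x * (fourier (-(j : ℤ)) x : ℂ)) := by
        intro x
        conv_lhs => rw [hP]
        simp only [map_sum, map_mul]
        rw [Finset.mul_sum]
        refine Finset.sum_congr rfl fun j _ => ?_
        rw [fourier_neg]
        ring
      simp only [h5]
      rw [integral_finsetSum _ fun j _ => hint _ (by fun_prop)]
      refine Finset.sum_eq_zero fun j _ => ?_
      rw [integral_const_mul, h1, mul_zero]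
    rw [h4] at h3
    exact_mod_cast h3
  have h3 : (fun x => ‖P x‖ ^ 2) =ᵐ[ν] 0 := by
    refine (integral_eq_zero_iff_of_nonneg (fun x => by positivity) ?_).1 h2
    exact Helper17.TranslM.integrable_cont ν (by fun_prop)
  filter_upwards [h3] with x hx
  apply hmem
  have h4 : ‖P x‖ ^ 2 = 0 := hx
  have h5 : P x = 0 := by
    rw [← norm_eq_zero]
    exact pow_eq_zero_iff (two_ne_zero) |>.1 h4
  exact h5

variable {s2 s3 t : Equiv.Perm ℚ}

/-- The recurrence of length `D + 1` for conditional dimension at most `D`. -/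
theorem recurrence_of_rank {τ : GG s2 s3 t} (hτ : (τ : Equiv.Perm ℚ) = t)
    (ht : ∀ x : ℚ, t x = x + 1) {φ : GG s2 s3 t → ℂ} {D : ℕ}
    (hD : Module.rank ℂ (Submodule.span ℂ {F : GG s2 s3 t → ℂ | ∃ n : GG s2 s3 t,
      IsTr n ∧ F = fun x => φ (n * x)}) ≤ (D : Cardinal)) :
    ∃ c : ℕ → ℂ, (∃ j, j < D + 1 ∧ c j ≠ 0) ∧
      ∀ m : ℤ, ∑ j ∈ range (D + 1), c j * φ (τ ^ ((j : ℤ) + m)) = 0 := by
  classical
  set W := Submodule.span ℂ {F : GG s2 s3 t → ℂ | ∃ n : GG s2 s3 t,
      IsTr n ∧ F = fun x => φ (n * x)} with hW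
  have htr : ∀ j : ℕ, IsTr (τ ^ (j : ℤ)) := by
    intro j
    refine ⟨j, fun x => ?_⟩
    rw [Subgroup.coe_zpow, hτ, t_zpow ht]
    push_cast
    rfl
  set F : Fin (D + 1) → W := fun j => ⟨fun x => φ (τ ^ ((j : ℕ) : ℤ) * x),
    Submodule.subset_span ⟨τ ^ ((j : ℕ) : ℤ), htr j, rfl⟩⟩ with hF
  have hdep : ¬ LinearIndependent ℂ F := by
    intro h
    have h1 := h.cardinal_lift_le_rank
    simp only [Cardinal.mk_fin, Cardinal.lift_uzero] at h1
    have h2 := h1.trans hD
    have h3 : D + 1 ≤ D := by exact_mod_cast h2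
    omega
  rw [Fintype.not_linearIndependent_iff] at hdep
  obtain ⟨g, hg, i, hi⟩ := hdep
  refine ⟨fun j => if h : j < D + 1 then g ⟨j, h⟩ else 0, ⟨i, i.2, by
    simp only
    rw [dif_pos i.2]
    exact hi⟩, fun m => ?_⟩
  have h1 := congrArg (fun w : W => (w : GG s2 s3 t → ℂ) (τ ^ m)) hg
  simp only [Submodule.coe_sum, Submodule.coe_smul, Finset.sum_apply, Pi.smul_apply, hF,
    ZeroMemClass.coe_zero, Pi.zero_apply, smul_eq_mul] at h1
  refine Eq.trans ?_ h1
  rw [Finset.sum_range]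
  refine Finset.sum_congr rfl fun j _ => ?_
  simp only
  rw [dif_pos j.2, zpow_add]

theorem exists_char_of_rank (ht : ∀ x : ℚ, t x = x + 1) {τ : GG s2 s3 t}
    (hτ : (τ : Equiv.Perm ℚ) = t) {φ : GG s2 s3 t → ℂ} {D : ℕ}
    (hD : Module.rank ℂ (Submodule.span ℂ {F : GG s2 s3 t → ℂ | ∃ n : GG s2 s3 t,
      IsTr n ∧ F = fun x => φ (n * x)}) ≤ (D : Cardinal))
    {μ : Measure (AddCircle (1 : ℝ))} [IsProbabilityMeasure μ]
    (hμ : ∀ n : ℤ, ∫ x, (fourier n x : ℂ) ∂μ = φ (τ ^ n))
    (hm2 : MeasurePreserving (T 2) μ μ) : ∀ᵐ x ∂μ, (2 ^ D).factorial • x = 0 := by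
  obtain ⟨c, hc, hrec⟩ := recurrence_of_rank hτ ht hD
  obtain ⟨Z, hZ, hae⟩ := support_card μ D c hc (fun m => by
    rw [← hrec m]
    refine Finset.sum_congr rfl fun j _ => ?_
    congr 1
    exact hμ _)
  exact trivial_of_card hm2 Z D hZ hae

/-- **Bounded conditional dimension: no phases.** -/
theorem no_phases (D : ℕ) : ∃ n : ℕ, ∀ {s2 s3 t : Equiv.Perm ℚ}, (∀ x : ℚ, t x = x + 1) →
    ∀ {τ : GG s2 s3 t}, (τ : Equiv.Perm ℚ) = t → ∀ φ : GG s2 s3 t → ℂ,
      Module.rank ℂ (Submodule.span ℂ {F : GG s2 s3 t → ℂ | ∃ n : GG s2 s3 t,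
        IsTr n ∧ F = fun x => φ (n * x)}) ≤ (D : Cardinal) →
      ∀ μ : Measure (AddCircle (1 : ℝ)), IsProbabilityMeasure μ →
        (∀ m : ℤ, ∫ x, (fourier m x : ℂ) ∂μ = φ (τ ^ m)) →
        MeasurePreserving (T 2) μ μ → ∀ (M : ℕ → ℕ) (q : ℕ), μ (Ph M n q) = 0 := by
  refine ⟨(2 ^ D).factorial + 2, fun {s2 s3 t} ht {τ} hτ φ hD μ hμp hμ hm2 M q => ?_⟩
  have hae := exists_char_of_rank ht hτ hD hμ hm2
  have hae' : ∀ᵐ x ∂μ, x ∉ Ph M ((2 ^ D).factorial + 2) q := by
    filter_upwards [hae] with x hx hPh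
    rcases Nat.eq_zero_or_pos (M q) with hM | hM
    · obtain ⟨ν, hν, h⟩ := hPh
      have hνp := hν.1
      have h1 := h 0 (by
        rw [abs_zero]
        exact Int.natCast_nonneg _)
      have h3 : cavg (M q) (2 ^ q) 0 x = 0 := by
        rw [hM]
        simp [cavg]
      have h4 : ∫ y, (fourier 0 y : ℂ) ∂ν = 1 := by simp
      rw [h3, h4, zero_sub, norm_neg, norm_one] at h1
      have h2 : (1 : ℝ) / (((2 ^ D).factorial + 2 : ℕ) + 1) ≤ 1 := by
        rw [div_le_one (by positivity)]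
        have : (0 : ℝ) ≤ (((2 ^ D).factorial + 2 : ℕ) : ℝ) := Nat.cast_nonneg _
        linarith
      linarith
    · have h1 := Pool.Agent.Helper40.LPA.norm_cavg_le_of_mem hPh ((2 ^ D).factorial : ℤ)
        (by exact_mod_cast (Nat.factorial_pos _).ne') (by
          rw [Nat.abs_cast]
          push_cast
          omega)
      rw [Pool.Agent.Helper40.LPA.cavg_eq_one hx (M q) (2 ^ q) hM Nat.one_le_two_pow,
        norm_one] at h1
      have h2 : (1 : ℝ) / (((2 ^ D).factorial + 2 : ℕ) + 1) < 1 / 2 := by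
        apply one_div_lt_one_div_of_lt (by norm_num)
        push_cast
        have : (1 : ℝ) ≤ ((2 ^ D).factorial : ℝ) := by
          exact_mod_cast Nat.succ_le_of_lt (Nat.factorial_pos _)
        linarith
      linarith
  exact measure_eq_zero_iff_ae_notMem.2 hae'

end Helper58.LU
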